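import Pool.Agent.Helper87.TB.St

set_option autoImplicit false

noncomputable section

namespace Pool.Agent.Helper87.TB

open Finset
open scoped Classical

/-- the graph of the pairs that are not rich -/
def poorGraph {n : ℕ} (V : Submodule (ZMod 2) (W n)) (ω : ℕ) : SimpleGraph (Fin n) :=
  SimpleGraph.fromRel (fun i j => ¬ Rich V ω {i, j})

theorem poorGraph_adj {n : ℕ} (V : Submodule (ZMod 2) (W n)) (ω : ℕ) (i j : Fin n) :
    (poorGraph V ω).Adj i j ↔ i ≠ j ∧ ¬ Rich V ω {i, j} := by
  rw [poorGraph, SimpleGraph.fromRel_adj, Finset.pair_comm j i, or_self]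

theorem aPC (hZY : StZY) : StPC := by
  intro n r ω N V hP
  have hG : (poorGraph V ω).CliqueFree (N + 1) := by
    intro S hS
    obtain ⟨i, hi, j, hj, hij, hr⟩ := hP S hS.card_eq
    exact ((poorGraph_adj V ω i j).1 (hS.isClique hi hj hij)).2 hr
  have hsub : poorSets V ω r ⊆ (poorGraph V ω).cliqueFinset r := by
    intro I hI
    simp only [poorSets, Finset.mem_filter, Finset.mem_univ, true_and] at hI
    rw [SimpleGraph.mem_cliqueFinset_iff]
    refine ⟨?_, hI.1⟩
    intro i hi j hj hij
    rw [poorGraph_adj]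
    refine ⟨hij, hI.2 {i, j} ?_ ⟨i, by simp⟩⟩
    intro k hk
    rcases Finset.mem_insert.1 hk with rfl | hk
    · exact hi
    · rw [Finset.mem_singleton.1 hk]; exact hj
  have h1 := hZY n N r (poorGraph V ω) hG
  exact (Nat.mul_le_mul_right _ (Finset.card_le_card hsub)).trans h1

end Pool.Agent.Helper87.TB

end
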