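import Pool.Agent.Helper87.TB.St

set_option autoImplicit false

noncomputable section

namespace Pool.Agent.Helper87.TB

open Finset
open scoped Classical

theorem aZY (hMM : StMM) : StZY := by
  intro n N r G hG
  obtain ⟨k, hk⟩ : ∃ k : ℕ → ℕ, k = fun j => (G.cliqueFinset j).card := ⟨_, rfl⟩
  have hk0 : k 0 = 1 := by
    rw [hk]
    have : G.cliqueFinset 0 = {∅} := by
      ext s
      simp only [SimpleGraph.mem_cliqueFinset_iff, SimpleGraph.isNClique_iff, Finset.card_eq_zero,
        Finset.mem_singleton]
      constructor
      · exact fun h => h.2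
      · rintro rfl
        exact ⟨by simp, rfl⟩
    simp [this]
  have hkgt : ∀ j, N < j → k j = 0 := by
    intro j hj
    rw [hk]
    simp only
    rw [Finset.card_eq_zero, SimpleGraph.cliqueFinset_eq_empty_iff]
    exact hG.mono hj
  have hmm : ∀ j, (j + 1) ^ 2 * k (j + 1) ^ 2 ≤
      k j * (j * (j + 2) * k (j + 2) + n * k (j + 1)) := by
    intro j
    have := hMM n G j
    rw [hk]
    exact this
  have claim : ∀ i, i ≤ N → (N - i + 1) * N * k (N - i + 1) ≤ i * n * k (N - i) := by
    intro i
    induction i with
    | zero => intro _; rw [hkgt (N - 0 + 1) (by omega)]; simp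
    | succ i ih =>
      intro hi
      have ih' := ih (by omega)
      obtain ⟨j, hj⟩ : ∃ j, j = N - (i + 1) := ⟨_, rfl⟩
      have e1 : N - i = j + 1 := by omega
      rw [e1] at ih'
      rw [← hj]
      have hNj : N = j + 1 + i := by omega
      have h1 := hmm j
      by_cases h0 : k (j + 1) = 0
      · rw [h0]; simp
      · have hpos : 0 < (j + 1) * k (j + 1) := Nat.mul_pos (by omega) (Nat.pos_of_ne_zero h0)
        apply Nat.le_of_mul_le_mul_left _ hpos
        calc (j + 1) * k (j + 1) * ((j + 1) * N * k (j + 1))
            = N * ((j + 1) ^ 2 * k (j + 1) ^ 2) := by ring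
          _ ≤ N * (k j * (j * (j + 2) * k (j + 2) + n * k (j + 1))) := Nat.mul_le_mul_left _ h1
          _ = k j * (j * ((j + 1 + 1) * N * k (j + 1 + 1)) + N * (n * k (j + 1))) := by ring
          _ ≤ k j * (j * (i * n * k (j + 1)) + N * (n * k (j + 1))) := by gcongr
          _ = (j + 1) * k (j + 1) * ((i + 1) * n * k j) := by rw [hNj]; ring
  have claim' : ∀ j, j ≤ N → (j + 1) * N * k (j + 1) ≤ (N - j) * n * k j := by
    intro j hj
    have := claim (N - j) (by omega)
    rwa [show N - (N - j) = j by omega] at this
  have main : ∀ r, r ≤ N → r.factorial * N ^ r * k r ≤ n ^ r * N.descFactorial r := by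
    intro r
    induction r with
    | zero => intro _; simp [hk0]
    | succ r ih =>
      intro hr
      have h1 := ih (by omega)
      have h2 := claim' r (by omega)
      calc (r + 1).factorial * N ^ (r + 1) * k (r + 1)
          = r.factorial * N ^ r * ((r + 1) * N * k (r + 1)) := by
            rw [Nat.factorial_succ]; ring
        _ ≤ r.factorial * N ^ r * ((N - r) * n * k r) := Nat.mul_le_mul_left _ h2
        _ = (N - r) * n * (r.factorial * N ^ r * k r) := by ring
        _ ≤ (N - r) * n * (n ^ r * N.descFactorial r) := Nat.mul_le_mul_left _ h1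
        _ = n ^ (r + 1) * N.descFactorial (r + 1) := by rw [Nat.descFactorial_succ]; ring
  by_cases hr : r ≤ N
  · have h1 := main r hr
    rw [Nat.descFactorial_eq_factorial_mul_choose] at h1
    have h2 : k r * N ^ r ≤ N.choose r * n ^ r := by
      apply Nat.le_of_mul_le_mul_left _ (Nat.factorial_pos r)
      calc r.factorial * (k r * N ^ r) = r.factorial * N ^ r * k r := by ring
        _ ≤ n ^ r * (r.factorial * N.choose r) := h1
        _ = r.factorial * (N.choose r * n ^ r) := by ring
    rw [hk] at h2
    exact h2
  · have h1 := hkgt r (by omega)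
    rw [hk] at h1
    simp only at h1
    rw [h1]; simp

end Pool.Agent.Helper87.TB

end
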