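import Pool.Agent.Helper57.TB.M_MM
import Pool.Agent.Helper87.TB.M_ZY
import Pool.Agent.Helper6.TB.M_CT
import Pool.Agent.Helper87.TB.M_PC
import Pool.Agent.Helper15.TB.M_PA
import Pool.Agent.Helper90.TB.M_PB
import Pool.Agent.Helper28.TB.M_EX
import Pool.Agent.Helper78.TB.M_PD
import Pool.Agent.Helper84.TB.M_BU
import Pool.Agent.Helper24.TB.M_AD

set_option autoImplicit false

noncomputable section

namespace Pool.Agent.Helper87.TB

theorem thmA : StPA := Helper15.TB.aPA Helper6.TB.aCT

theorem thmPC : StPC := aPC (aZY Helper57.TB.aMM)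

theorem thmB : StPB := Helper90.TB.aPB Helper6.TB.aCT thmPC

theorem thmC : StPD := Helper78.TB.aPD thmB Helper28.TB.aEX

theorem thmD : StAD := Helper24.TB.aAD Helper84.TB.aBU

end Pool.Agent.Helper87.TB

end
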