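import Mathlib

/-!
# Project TB (MP_e73f90_co, Turan barrier): definitions
-/

set_option autoImplicit false

noncomputable section

namespace Pool.Agent.Helper87.TB

open Finset
open scoped Classical

/-- binary words of length `n` -/
abbrev W (n : ℕ) : Type := Fin n → ZMod 2

/-- `V` is a covering subspace of radius `r` -/
def Cov (n r : ℕ) (V : Submodule (ZMod 2) (W n)) : Prop :=
  ∀ y : W n, ∃ v ∈ V, hammingNorm (y - v) ≤ r

/-- the density `|V| |B(n,r)| / 2 ^ n` -/
def dens (n r : ℕ) (V : Submodule (ZMod 2) (W n)) : ℝ :=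
  (Nat.card V : ℝ) * (((univ.filter (fun x : W n => hammingNorm x ≤ r)).card : ℕ) : ℝ) / (2 : ℝ) ^ n

/-- the word with support `J` -/
def ind {n : ℕ} (J : Finset (Fin n)) : W n := fun i => if i ∈ J then 1 else 0

/-- the number of sets `K` of the same size as `J` whose word lies in the coset of the word of `J`
(`J` itself included) -/
def mult {n : ℕ} (V : Submodule (ZMod 2) (W n)) (J : Finset (Fin n)) : ℕ :=
  (univ.filter (fun K : Finset (Fin n) => K.card = J.card ∧ ind J + ind K ∈ V)).card

/-- `J` is `ω`-rich: at least `ω` sets of the same size have their word in the same coset of `V` -/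
def Rich {n : ℕ} (V : Submodule (ZMod 2) (W n)) (ω : ℕ) (J : Finset (Fin n)) : Prop := ω ≤ mult V J

/-- the `r`-sets of coordinates without rich nonempty subset -/
def poorSets {n : ℕ} (V : Submodule (ZMod 2) (W n)) (ω r : ℕ) : Finset (Finset (Fin n)) :=
  (univ : Finset (Finset (Fin n))).filter
    (fun I => I.card = r ∧ ∀ J : Finset (Fin n), J ⊆ I → J.Nonempty → ¬ Rich V ω J)

/-- every `N + 1` coordinates contain a rich pair -/
def PairsRich {n : ℕ} (V : Submodule (ZMod 2) (W n)) (ω N : ℕ) : Prop :=
  ∀ S : Finset (Fin n), S.card = N + 1 → ∃ i ∈ S, ∃ j ∈ S, i ≠ j ∧ Rich V ω {i, j}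

end Pool.Agent.Helper87.TB

end
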