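import Pool.Agent.Helper87.TB.St

set_option autoImplicit false

noncomputable section

namespace Pool.Agent.Helper87.TB

open Finset
open scoped Classical

/-- assembly test: all statements are what the final theorem needs -/
theorem assembly (hMM : StMM) (hZY : StMM → StZY) (hCT : StCT) (hPC : StZY → StPC) (hPA : StCT → StPA)
    (hPB : StCT → StPC → StPB) (hEX : StEX) (hPD : StPB → StEX → StPD) (hBU : StBU) (hAD : StBU → StAD) :
    StPA ∧ StPB ∧ StPD ∧ StAD :=
  ⟨hPA hCT, hPB hCT (hPC (hZY hMM)), hPD (hPB hCT (hPC (hZY hMM))) hEX, hAD hBU⟩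

end Pool.Agent.Helper87.TB

end
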