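import Pool.Agent.Helper87.TB.Defs

/-!
# Project TB (MP_e73f90_co, Turan barrier): statements, with complete proofs in words

THEOREM (assembled in Final.lean from the statements below).
(A) for all `r`, `M`, `ε > 0` there are `ω`, `n0` such that every covering subspace of radius `r` and density `≤ M` of
`F_2 ^ n`, `n ≥ n0`, has at least `(1 - ε) C(n,r) / M` sets of `r` coordinates without `ω`-rich nonempty subset;
(B) if every `N + 1` coordinates contain a rich pair, the density is at least `1 / (∏_{j<r} (1 - j/N) + ε)`;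
(C) so a density `< exp (r (r-1) / (2 N))` forces `N + 1` coordinates without rich pair;
(D) in (B) the bound is attained up to the factor `2 log (2 C(N,r))`.
-/

set_option autoImplicit false

noncomputable section

namespace Pool.Agent.Helper87.TB

open Finset
open scoped Classical

/-- MODULE MM (Moon-Moser inequality). `k_j` = number of `j`-cliques. Claim `j² k_j² ≤ k_{j-1} ((j²-1) k_{j+1} + n k_j)`;
written for `j + 1`.

PROOF. For a clique `S` let `d(S)` be the number of vertices `v ∉ S` such that `S ∪ {v}` is a clique. Let `T` be a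
`(j+1)`-clique. Count the pairs `(S, v)`, `S ⊂ T` of size `j`, `v ∉ T`, `S ∪ {v}` a clique. For given `S` there are `d(S) - 1` such
`v` (the one vertex of `T \ S` is excluded). For given `v ∉ T` the number of `S` is `j+1` if `v` is adjacent to all of `T`, else
`≤ 1` (if `v` is not adjacent to `t ∈ T` then `S = T \ {t}`). Hence
`∑_{S ⊂ T} (d(S) - 1) ≤ (j+1) d(T) + (n - (j+1) - d(T))`, i.e. `∑_{S ⊂ T} d(S) ≤ j d(T) + n`.
Sum over `T`: each `S` lies in `d(S)` cliques `T`, and `∑_T d(T) = (j+2) k_{j+2}`, `∑_S d(S) = (j+1) k_{j+1}`: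
`∑_S d(S)² ≤ j (j+2) k_{j+2} + n k_{j+1}`. Cauchy-Schwarz: `((j+1) k_{j+1})² ≤ k_j ∑_S d(S)²`. -/
def StMM : Prop :=
  ∀ (n : ℕ) (G : SimpleGraph (Fin n)) (j : ℕ),
    (j + 1) ^ 2 * (G.cliqueFinset (j + 1)).card ^ 2 ≤
      (G.cliqueFinset j).card *
        (j * (j + 2) * (G.cliqueFinset (j + 2)).card + n * (G.cliqueFinset (j + 1)).card)

/-- MODULE ZY (Zykov's theorem, uses `StMM`). A `K_{N+1}`-free graph on `n` vertices has at most `C(N,r) (n/N)^r` cliques with `r`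
vertices.

PROOF. Let `k_j` be the number of `j`-cliques, `k_0 = 1`, `k_j = 0` for `j > N`. Claim: `(j+1) N k_{j+1} ≤ (N - j) n k_j` for
`0 ≤ j ≤ N`. Downward induction on `j`: for `j = N` both sides are `0`. Step from `j + 1` to `j` (`j + 1 ≤ N`): by `StMM` and the
claim `(j+2) N k_{j+2} ≤ (N - j - 1) n k_{j+1}`:
`N (j+1)² k_{j+1}² ≤ k_j (j (N-j-1) n k_{j+1} + N n k_{j+1}) = k_j k_{j+1} n (j (N-j-1) + N)` and
`j (N-j-1) + N = (j+1) (N-j)`. If `k_{j+1} = 0` the claim is trivial, otherwise divide by `(j+1) k_{j+1}`.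
Multiplying the claims for `j = 0, ..., r-1`: `r! N^r k_r ≤ n^r N (N-1) ... (N-r+1) = n^r r! C(N,r)` (for `r ≤ N`; for `r > N`
`k_r = 0`). -/
def StZY : Prop :=
  ∀ (n N r : ℕ) (G : SimpleGraph (Fin n)), G.CliqueFree (N + 1) →
    (G.cliqueFinset r).card * N ^ r ≤ N.choose r * n ^ r

/-- MODULE CT (counting). `2^n / |V|` is at most the number of poor `r`-sets plus `r n^r / ω + r n^(r-1)`, here multiplied out.

PROOF. Let `Q = F_2^n / V` and `σ(J) ∈ Q` the class of `ind J`. `|Q| |V| = 2^n`. Since `V` covers with radius `r`, for every class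
`q` there is a word `x ∈ q` of weight `≤ r` (`y ∈ q`, `v ∈ V`, `x = y - v`), `x = ind J` with `J` the support of `x`,
`|J| ≤ r`. So `Q` is the union of the images under `σ` of (1) the poor `r`-sets, (2) the `r`-sets `I` with a rich nonempty subset `J`,
(3) the sets with fewer than `r` elements. (1) has at most `(poorSets V ω r).card` classes. (3): at most
`∑_{k<r} C(n,k) ≤ r n^(r-1)` classes (`C(n,k) ≤ n^k ≤ n^(r-1)` as `n ≥ 1`). (2): `σ(I) = σ(J) + σ(I \ J)`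
(`ind I = ind J + ind (I \ J)`), where `1 ≤ j = |J| ≤ r`, `σ(J)` is in the set `P_j` of the classes `q` for which
there are at least `ω` sets `K` with `|K| = j` and `σ(K) = q` (`ind J + ind K ∈ V` iff `σ(J) = σ(K)`, characteristic 2), and `I \ J` has
`r - j` elements. `ω |P_j| ≤ C(n,j) ≤ n^j`, so the number of classes in (2) times `ω` is at most
`∑_{j=1}^r ω |P_j| C(n,r-j) ≤ ∑_{j=1}^r n^j n^(r-j) = r n^r`. -/
def StCT : Prop :=
  ∀ (n r ω : ℕ) (V : Submodule (ZMod 2) (W n)), 1 ≤ n → 1 ≤ r → Cov n r V →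
    ω * 2 ^ n ≤ Nat.card V * (ω * (poorSets V ω r).card + r * n ^ r + ω * (r * n ^ (r - 1)))

/-- MODULE PC (poor sets are cliques). If every `N + 1` coordinates contain a rich pair then
`N ^ r |poorSets| ≤ C(N,r) n^r`. Uses `StZY`.

PROOF. Let `G` be the graph on `Fin n` with `i ~ j` iff `i ≠ j` and `{i,j}` is not rich. An `(N+1)`-clique would be a set of `N + 1`
coordinates without rich pair, so `G.CliqueFree (N+1)`. A poor `r`-set is an `r`-clique of `G` (its subsets `{i,j}` are not rich).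
So `poorSets V ω r ⊆ G.cliqueFinset r`. -/
def StPC : Prop :=
  ∀ (n r ω N : ℕ) (V : Submodule (ZMod 2) (W n)), PairsRich V ω N →
    (poorSets V ω r).card * N ^ r ≤ N.choose r * n ^ r

/-- MODULE PA (theorem (A)). Uses `StCT`.

PROOF. `r = 0`: then `C(n,0) = 1` and the only `0`-set is poor (no nonempty subset) and `M ≥ 1`:
the density of `V` covering with radius `0` is `|V| 1 / 2^n = 1` (`V = ⊤`), so `1 ≤ M`. Let `r ≥ 1`, and `ε < 1`, `M > 0` (otherwise
trivial: the density is `> 0`, so `M > 0`; for `ε ≥ 1` the left side is `≤ 0`). Let `b = |{x : |x| ≤ r}| ≥ C(n,r)`, `2^n · dens = |V| b`.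
`StCT` divided by `ω |V|`: `2^n/|V| ≤ p + r n^r/ω + r n^(r-1)` (`p` = number of poor `r`-sets), and `b = dens · 2^n/|V| ≤ M 2^n/|V|`, so
`C(n,r) ≤ M (p + r n^r/ω + r n^(r-1))`. For `n ≥ 2 r`: `C(n,r) ≥ (n-r)^r/r! ≥ (n/2)^r/r!`, i.e. `n^r ≤ 2^r r! C(n,r)`. So
`M r n^r / ω ≤ (ε/2) C(n,r)` if `ω ≥ 2 M r 2^r r!/ε`, and `M r n^(r-1) ≤ (ε/2) C(n,r)` if `n ≥ 2 M r 2^r r!/ε`. -/
def StPA : Prop :=
  ∀ (r : ℕ) (M ε : ℝ), 0 < ε → ∃ ω n0 : ℕ, ∀ n : ℕ, n0 ≤ n → ∀ V : Submodule (ZMod 2) (W n),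
    Cov n r V → dens n r V ≤ M →
      (1 - ε) * (n.choose r : ℝ) ≤ M * ((poorSets V ω r).card : ℝ)

/-- MODULE PB (theorem (B)). Uses `StCT`, `StPC`.

PROOF. `r = 0`: density `= 1` and the empty product is `1`. Let `r ≥ 1`. If `dens ≥ 1/ε` we are done
(the product is `≥ 0`: it is `0` if `N < r`, since the factor with `j = N` vanishes, and all factors are `≥ 0` if `r ≤ N`). Otherwise
`D = dens < 1/ε`. As in `StPA`, `C(n,r) ≤ b = D 2^n/|V| ≤ D (p + r n^r/ω + r n^(r-1))` and `p ≤ C(N,r) n^r / N^r` by `StPC`,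
`r! C(N,r)/N^r = ∏_{j<r} (1 - j/N) =: π`. So `1 ≤ D (π n^r/(r! C(n,r)) + (r n^r/ω + r n^(r-1))/C(n,r))`. As `n → ∞` `n^r/(r! C(n,r)) → 1`
(`r! C(n,r) ≥ (n-r)^r`), so for `n ≥ n0` the first term is `≤ π + ε/3` (`π ≤ 1`), and the others are `≤ ε/3` each for `ω`, `n` large
(`n^r ≤ 2^r r! C(n,r)` for `n ≥ 2r`). -/
def StPB : Prop :=
  ∀ (r N : ℕ) (ε : ℝ), 1 ≤ N → 0 < ε → ∃ ω n0 : ℕ, ∀ n : ℕ, n0 ≤ n → ∀ V : Submodule (ZMod 2) (W n),
    Cov n r V → PairsRich V ω N →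
      1 ≤ dens n r V * ((∏ j ∈ range r, (1 - (j : ℝ) / N)) + ε)

/-- MODULE EX (elementary). `∏_{j<r} (1 - j/N) ≤ exp (-r(r-1)/(2N))`; for `N < r` the product vanishes.

PROOF. `1 - t ≤ exp (-t)`, all factors are `≥ 0` for `r ≤ N`; `∑_{j<r} j = r(r-1)/2`. For `N < r` the factor `j = N` is `0`. -/
def StEX : Prop :=
  ∀ (r N : ℕ), 1 ≤ N →
    (∏ j ∈ range r, (1 - (j : ℝ) / N)) ≤ Real.exp (-((r : ℝ) * (r - 1) / (2 * N))) ∧
      0 ≤ ∏ j ∈ range r, (1 - (j : ℝ) / N)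

/-- MODULE PD (theorem (C)). Uses `StPB`, `StEX`.

PROOF. `M > 0` since densities are `> 0` (if `M ≤ 0` no `V` has density `≤ M`; the density is positive). Choose `ε > 0` with
`M (exp (-r(r-1)/(2N)) + ε) < 1`, possible since `M < exp (r(r-1)/(2N))`. Take `ω`, `n0` from `StPB`. If there were no set `S` of `N + 1`
coordinates without rich pair, `PairsRich V ω N` would hold and `1 ≤ dens (π + ε) ≤ M (exp(..) + ε) < 1`. -/
def StPD : Prop :=
  ∀ (r N : ℕ) (M : ℝ), 1 ≤ N → M < Real.exp ((r : ℝ) * (r - 1) / (2 * N)) →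
    ∃ ω n0 : ℕ, ∀ n : ℕ, n0 ≤ n → ∀ V : Submodule (ZMod 2) (W n), Cov n r V → dens n r V ≤ M →
      ∃ S : Finset (Fin n), S.card = N + 1 ∧ ∀ i ∈ S, ∀ j ∈ S, i ≠ j → ¬ Rich V ω {i, j}

/-- MODULE BU (blow-up of a greedy labelling). Let `c log 2 · 2^c < C(N,r)`, `N ≤ 2^t`, `1 ≤ t`, `c ≤ N`. There is a covering
subspace of radius `r` of `F_2 ^ n`, `n = N 2^t`, with `|V| 2^(c + t r) = 2^n`, in which every `N + 1` coordinates contain a
`2^(t-1)`-rich pair.

PROOF. `exists_syn` of `Pool/Agent/Helper26/CovL/Syn.lean` gives labels `h : Fin N → Q`, `|Q| = 2^c`, such that every element of `Q` is the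
sum of the labels of an `r`-set (`Syn h r`), and `Syn.blowup` (same file) with an embedding `β : Fin N ↪ F`, `F = GF(2^t)`
(`N ≤ 2^t`), gives `Syn (fun p : Fin N × F => (h p.1, fun k : Fin r => p.2 * β p.1 ^ k)) r`. Let `Q' = Q × (Fin r → F)`, a vector space
over `ZMod 2` with `2^c · 2^(tr)` elements, `col : Fin N × F → Q'` this map. Coordinates: a bijection `Fin (N * 2^t) ≃ Fin N × F`; `V` =
kernel of the linear map `w ↦ ∑ w_i col_i`; it is onto `Q'` by `Syn`, so `|V| |Q'| = 2^n` (compare `Syn.code` in the same file, which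
does exactly this). Covering: for `y` take the `r`-set `T` with `∑_{i in T} col_i = ∑ y_i col_i`; then `y - ind T ∈ V`, and
`y - (y - ind T) = ind T` has weight `r`. Rich pairs: two of `N + 1` coordinates have the same first
component `i`: `(i,x)`, `(i,y)`, `x ≠ y`. With `d = x + y ≠ 0` all pairs `{(i,a), (i,a+d)}` have the same sum of columns
`(h i + h i, (d β_i^k)_k) = (0, ...)`; there are `2^(t-1)` of them (`a ↦ {a, a+d}` is two-to-one on the `2^t` elements), all in the coset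
of the word of `{(i,x),(i,y)}`. So `mult ≥ 2^(t-1)`. -/
def StBU : Prop :=
  ∀ (r N c t : ℕ), 1 ≤ r → c ≤ N → (c : ℝ) * Real.log 2 * 2 ^ c < (N.choose r : ℝ) → N ≤ 2 ^ t → 1 ≤ t →
    ∃ V : Submodule (ZMod 2) (W (N * 2 ^ t)), Cov (N * 2 ^ t) r V ∧
      Nat.card V * 2 ^ (c + t * r) = 2 ^ (N * 2 ^ t) ∧ PairsRich V (2 ^ (t - 1)) N

/-- MODULE AD (theorem (D), sharpness up to a logarithm). Uses `StBU`.

PROOF. Let `C = C(N,r) ≥ 1` and let `c` be the largest natural number with `c log 2 · 2^c < C` (`c = 0` is admissible; the left side is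
unbounded). Then `(c+1) log 2 · 2^(c+1) ≥ C`, so `C / 2^c ≤ 2 (c+1) log 2`. Moreover `(c+1) log 2 ≤ log (2C)`, i.e. `2^c ≤ C`: clear for
`c = 0`; `c = 1`: `C > 2 log 2 > 1`, so `C ≥ 2`; `c ≥ 2`: `2^c ≤ c log 2 2^c < C` as `2 log 2 > 1`. Also `c ≤ N` (`2^c ≤ C(N,r) ≤ 2^N`).
So `C / 2^c ≤ 2 log (2C)`. For `t` large (`N ≤ 2^t`, `2^(t-1) ≥ ω`, `N 2^t ≥ n1`) take `V` from `StBU`, `n = N 2^t`
(`PairsRich` is antitone in `ω`: `Rich V ω' J → Rich V ω J` for `ω ≤ ω'`). Its density is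
`b / 2^(c + tr)` with `b = |{x : |x| ≤ r}| ≤ C(n+r, r) ≤ (n+r)^r / r!` (`card_ball_le` in `Pool/Agent/Helper26/CovL/Num.lean`). Hence
`dens · π ≤ (n+r)^r / (r! 2^c 2^(tr)) · π = (1 + r/n)^r N^r/(r! 2^c) π` and `N^r π = r! C(N,r)` (`π = ∏_{j<r} (1 - j/N)`,
`N (N-1) ... (N-r+1) = r! C(N,r)`), so `dens · π ≤ (1 + r/n)^r C / 2^c ≤ (1 + r/n)^r 2 log (2C) ≤ 2 log (2C) + ε` for `n` large. -/
def StAD : Prop :=
  ∀ (r N : ℕ) (ε : ℝ), 1 ≤ r → r ≤ N → 0 < ε → ∀ ω n1 : ℕ, ∃ n : ℕ, n1 ≤ n ∧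
    ∃ V : Submodule (ZMod 2) (W n), Cov n r V ∧ PairsRich V ω N ∧
      dens n r V * (∏ j ∈ range r, (1 - (j : ℝ) / N)) ≤ 2 * Real.log (2 * (N.choose r : ℝ)) + ε

end Pool.Agent.Helper87.TB

end
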